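import Pool.Agent.Q31.GLV.Stm

/-!
# GLV: the statement T5A
-/

set_option autoImplicit false

namespace Pool.Agent.Q294.GLV

open Module Cardinal Submodule Pool.Agent.Q31.GLV

theorem t_T5A : S_T5A := by
  intro F V _ _ _ hV hμ H hH U hU hN
  obtain ⟨μ, hμ0, hμ1⟩ := hμ
  obtain ⟨k, hkH, hku, hkv⟩ := hN (LinearEquiv.smulOfNeZero F U μ hμ0)
  have hμ' : μ - 1 ≠ 0 := sub_ne_zero.2 hμ1
  set γ : V →ₗ[F] U := LinearMap.codRestrict U ((k : V →ₗ[F] V) - LinearMap.id) (fun v => hkv v) with hγ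
  have hγv : ∀ v, (γ v : V) = k v - v := fun v => rfl
  have hγu : ∀ u : U, γ (u : V) = (μ - 1) • u := by
    intro u
    apply Subtype.ext
    rw [hγv, hku]
    change (μ • (u : V)) - u = (μ - 1) • (u : V)
    rw [sub_smul, one_smul]
  refine ⟨LinearMap.ker ((μ - 1)⁻¹ • γ), LinearMap.isCompl_of_proj (fun u => ?_), ?_⟩
  · rw [LinearMap.smul_apply, hγu, smul_smul, inv_mul_cancel₀ hμ', one_smul]
  intro C₁ hC₁ hr₁ hr₂
  have hdis : ∀ c : V, c ∈ C₁ → c ∈ U → c = 0 := by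
    intro c hc hcU
    have h1 := hC₁ hc
    rw [LinearMap.mem_ker, LinearMap.smul_apply] at h1
    have h2 := hγu ⟨c, hcU⟩
    simp only at h2
    rw [h2, smul_smul, inv_mul_cancel₀ hμ', one_smul] at h1
    exact congrArg Subtype.val h1
  obtain ⟨p⟩ : Nonempty (C₁ ≃ₗ[F] U) := nonempty_linearEquiv_of_rank_eq (hr₁.trans hU.1.symm)
  obtain ⟨q0, hq0⟩ := LinearMap.exists_leftInverse_of_injective (U.mkQ ∘ₗ C₁.subtype) (by
    rw [LinearMap.ker_eq_bot']
    intro c hc
    have : (c : V) ∈ U := by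
      have h1 : U.mkQ (c : V) = 0 := hc
      rwa [Submodule.mkQ_apply, Submodule.Quotient.mk_eq_zero] at h1
    exact Subtype.ext (hdis c c.2 this))
  set P : V →ₗ[F] U := (p : C₁ →ₗ[F] U) ∘ₗ q0 ∘ₗ U.mkQ with hP
  have hPU : ∀ u ∈ U, P u = 0 := by
    intro u hu
    have : U.mkQ u = 0 := by
      rwa [Submodule.mkQ_apply, Submodule.Quotient.mk_eq_zero]
    rw [hP, LinearMap.comp_apply, LinearMap.comp_apply, this, map_zero, map_zero]
  have hPC : ∀ c : C₁, P (c : V) = p c := by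
    intro c
    have := LinearMap.congr_fun hq0 c
    rw [LinearMap.comp_apply, LinearMap.comp_apply, LinearMap.id_apply] at this
    rw [hP, LinearMap.comp_apply, LinearMap.comp_apply]
    change p (q0 (U.mkQ (C₁.subtype c))) = p c
    rw [this]
  have hW : Large (U ⊔ C₁) := by
    refine ⟨le_antisymm (Submodule.rank_le _) ?_, hr₂⟩
    rw [← hU.1]
    exact Submodule.rank_mono le_sup_left
  set PW : (U ⊔ C₁ : Submodule F V) →ₗ[F] (U ⊔ C₁ : Submodule F V) :=
    LinearMap.codRestrict (U ⊔ C₁) (U.subtype ∘ₗ P ∘ₗ (U ⊔ C₁).subtype)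
      (fun w => le_sup_left (a := U) (P (w : V)).2) with hPW
  have hPWv : ∀ w, (PW w : V) = P (w : V) := fun w => rfl
  have hPW2 : ∀ w, PW (PW w) = 0 := by
    intro w
    apply Subtype.ext
    rw [hPWv, hPWv, hPU _ (P (w : V)).2]
    rfl
  set g : (U ⊔ C₁ : Submodule F V) ≃ₗ[F] (U ⊔ C₁ : Submodule F V) :=
    LinearEquiv.ofLinear (LinearMap.id + PW) (LinearMap.id - PW)
      (by ext w; simp [hPW2]) (by ext w; simp [hPW2]) with hg
  obtain ⟨h, hhH, hhw⟩ := hH (U ⊔ C₁) hW g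
  have hgw : ∀ w : (U ⊔ C₁ : Submodule F V), h (w : V) = w + P (w : V) := by
    intro w
    rw [hhw]
    rfl
  have hhU : ∀ u : U, h (u : V) = u := by
    intro u
    have h1 := hgw ⟨u, le_sup_left (a := U) u.2⟩
    simp only at h1
    rw [h1, hPU _ u.2, ZeroMemClass.coe_zero, add_zero]
  refine ⟨γ ∘ₗ ((h : V →ₗ[F] V) - LinearMap.id), ⟨fun u => ?_, h⁻¹ * k * h * k⁻¹,
    H.mul_mem (H.mul_mem (H.mul_mem (H.inv_mem hhH) hkH) hhH) (H.inv_mem hkH), fun v => ?_⟩, ?_⟩
  · rw [LinearMap.comp_apply, LinearMap.sub_apply, LinearMap.id_apply, LinearEquiv.coe_coe, hhU, sub_self, map_zero]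
  · obtain ⟨w, rfl⟩ := k.surjective v
    have e1 : (h⁻¹ * k * h * k⁻¹) (k w) = h.symm (k (h w)) := by
      change h.symm (k (h (k.symm (k w)))) = _
      rw [LinearEquiv.symm_apply_apply]
    have e2 : k w = w + (γ w : V) := by rw [hγv]; abel
    have e3 : k (h w) = h w + (γ (h w) : V) := by rw [hγv]; abel
    have e4 : h.symm (γ (h w) : V) = (γ (h w) : V) := by
      rw [LinearEquiv.symm_apply_eq, hhU]
    rw [e1, e3, map_add, LinearEquiv.symm_apply_apply, e4, e2, LinearMap.comp_apply, LinearMap.sub_apply,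
      LinearMap.id_apply, LinearEquiv.coe_coe, map_add h, hhU]
    have e5 : h w + (γ w : V) - (w + (γ w : V)) = h w - w := by abel
    rw [e5, map_sub γ, AddSubgroupClass.coe_sub]
    abel
  · intro v hv h0
    rw [LinearMap.comp_apply, LinearMap.sub_apply, LinearMap.id_apply, LinearEquiv.coe_coe] at h0
    have h1 := hgw ⟨v, le_sup_right (b := C₁) hv⟩
    simp only at h1
    rw [h1, add_sub_cancel_left, hγu, hPC ⟨v, hv⟩, smul_eq_zero] at h0
    rcases h0 with h0 | h0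
    · exact absurd h0 hμ'
    · rw [LinearEquiv.map_eq_zero_iff] at h0
      exact congrArg Subtype.val h0

end Pool.Agent.Q294.GLV
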